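import Pool.Agent.Lib.MP_d71b33_lc_h70.Main
import Pool.Agent.Lib.MP_d71b33_lc_helper25.AS2

/-!
# Butterflies with random faults emulate butterflies with constant slowdown (MP_d71b33_lc, Q1)
-/

namespace Pool.Agent.Results.MP_d71b33_lc.ConstantSlowdown

open Pool.Agent.Bfly

/-- There are `p0 > 0` and a constant `s` such that for every fault probability `p ≤ p0` the
`n`-dimensional butterfly with random faults emulates the fault-free `n`-dimensional butterfly with
slowdown `s` with probability tending to `1` (at least `1 - 2 ^ (-n/32)` for large `n`). -/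
theorem result : ∃ p0 : ℝ, 0 < p0 ∧ ∃ s : ℕ, ∀ p : ℝ, 0 ≤ p → p ≤ p0 →
    (∃ n0 : ℕ, ∀ n, n0 ≤ n → 1 - (1 / 2 : ℝ) ^ (n / 32) ≤
      prob n p (fun F => Emulates (butterfly n) (butterfly n) F s)) ∧
    Filter.Tendsto (fun n => prob n p (fun F => Emulates (butterfly n) (butterfly n) F s))
      Filter.atTop (nhds 1) := by
  obtain ⟨p0, hp0, hp1, hp2⟩ := PB.exists_p0 32
  refine ⟨p0, hp0, Sys.slow 32 (PB.KK 32), fun p h0 h1 => ?_⟩
  have h1' : p ≤ 1 := h1.trans hp1
  have key : ∀ n, 32 * (4 * cbg 32 * PB.hl 32 0) ≤ n → 1 - (1 / 2 : ℝ) ^ (n / 32) ≤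
      prob n p (fun F => Emulates (butterfly n) (butterfly n) F (Sys.slow 32 (PB.KK 32))) := by
    intro n hn
    refine (PB.prob_sys (by norm_num) PB.KK32 h0 h1' (hp2 p h1) ?_).trans
      (PB.prob_mono h0 h1' ?_)
    · rw [Nat.le_div_iff_mul_le (by norm_num)]
      omega
    · rintro F ⟨S, rfl, hg, hK⟩
      have h2 := S.emulates
      rwa [hg, hK] at h2
  refine ⟨⟨_, key⟩, ?_⟩
  have hlim : Filter.Tendsto (fun n : ℕ => 1 - (1 / 2 : ℝ) ^ (n / 32)) Filter.atTop (nhds 1) := by
    have h2 : Filter.Tendsto (fun n : ℕ => n / 32) Filter.atTop Filter.atTop := by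
      refine Filter.tendsto_atTop_atTop.2 fun b => ⟨32 * b, fun a ha => ?_⟩
      rw [Nat.le_div_iff_mul_le (by norm_num)]
      omega
    have h3 := (tendsto_pow_atTop_nhds_zero_of_lt_one (r := (1 / 2 : ℝ)) (by norm_num)
      (by norm_num)).comp h2
    have h4 := h3.const_sub (1 : ℝ)
    rw [sub_zero] at h4
    exact h4
  refine tendsto_of_tendsto_of_tendsto_of_le_of_le' hlim tendsto_const_nhds ?_ ?_
  · exact Filter.eventually_atTop.2 ⟨_, key⟩
  · refine Filter.Eventually.of_forall fun n => ?_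
    have h3 := PB.prob_compl (n := n) (p := p)
      (fun F => Emulates (butterfly n) (butterfly n) F (Sys.slow 32 (PB.KK 32)))
    have h4 := PB.prob_nonneg (n := n) h0 h1'
      (fun F => ¬ Emulates (butterfly n) (butterfly n) F (Sys.slow 32 (PB.KK 32)))
    linarith

end Pool.Agent.Results.MP_d71b33_lc.ConstantSlowdown
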